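import Pool.Agent.W2helper5.QD.Stm

/-!
Project QD, piece BIS: the bisectors of the regular polygon of directions close to the axis.
-/

set_option autoImplicit false

namespace Pool.Agent.W2helper77.QD

open MeasureTheory Set Pool.V11275.Quad Pool.Agent.Helper717.Hull1 Pool.Agent.Helper717.Hull2
open Pool.Agent.W2helper5.QD

/-- removing and adding -/
lemma diff_add {R : Set E2} (h : Body R) {V V' : Set E2} (hV : MeasurableSet V)
    (hV' : MeasurableSet V') :
    (mu R).real V' = (mu R).real V - (mu R).real (V \ V') + (mu R).real (V' \ V) := by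
  have := h.fin
  have h1 := measureReal_inter_add_sdiff (μ := mu R) (s := V) hV'
  have h2 := measureReal_inter_add_sdiff (μ := mu R) (s := V') hV
  rw [inter_comm] at h2
  linarith

lemma dot_up (p : E2) : dot (e (Real.pi / 2)) p = p 1 := by
  simp [dot]

lemma half_up : {p : E2 | 0 ≤ dot (e (Real.pi / 2)) p} = {p : E2 | 0 ≤ p 1} := by
  ext p; simp only [mem_ofPred_eq, dot_up]

lemma dot_perp (θ : ℝ) (p : E2) :
    dot (e (θ + Real.pi / 2)) p = Real.cos θ * p 1 - Real.sin θ * p 0 := by
  simp only [dot, e_zero', e_one', Real.cos_add_pi_div_two, Real.sin_add_pi_div_two]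
  ring

theorem BIS : P_BIS := by
  intro CNU CNL hB hR hS hP hT m hm hmo θ h0 h1
  have hmR : (5 : ℝ) ≤ m := by exact_mod_cast hm
  have hm0 : (0 : ℝ) < m := by linarith
  have hα0 : 0 < al m := div_pos Real.pi_pos hm0
  have hα5 : al m ≤ Real.pi / 5 := by
    unfold al
    exact div_le_div_of_nonneg_left Real.pi_pos.le (by norm_num) hmR
  obtain ⟨hBody, -, -, hedge, hsec, -, -⟩ := hR m (by omega)
  obtain ⟨hT1, -, -⟩ := hT (al m) hα0 hα5
  obtain ⟨x1pos, x1le, htan, hT4, -⟩ := hT1 θ h0.le h1
  have hmα : (m : ℝ) * al m = Real.pi := by unfold al; field_simp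
  obtain ⟨hB1, hB2, -, hB4, -, -⟩ := hB (P m) hBody
  obtain ⟨j, hj⟩ : ∃ j : ℕ, m = 2 * j + 1 := ⟨m / 2, by omega⟩
  have hjα : (2 * ((j : ℤ) : ℝ) + 1) * al m = Real.pi := by
    rw [← hmα, hj]; push_cast; ring
  -- the bisector of angle 0
  have hup : hh (P m) (Real.pi / 2) = 0 := by
    have g1 := (hP hB hR hS m (by omega) hmo (Real.pi / 2)).1
    have g2 := hB4 (-(Real.pi / 2))
    have e1 : -(Real.pi / 2) + Real.pi = Real.pi / 2 := by ring
    rw [e1] at g2
    linarith
  have hV0 : (mu (P m)).real {p : E2 | 0 ≤ p 1} = M (P m) / 2 := by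
    have := hB1 (Real.pi / 2)
    rw [hup] at this
    unfold H at this
    rwa [half_up] at this
  obtain ⟨α, hα⟩ : ∃ α, α = al m := ⟨_, rfl⟩
  obtain ⟨x, hx⟩ : ∃ x, x = x1 (al m) θ := ⟨_, rfl⟩
  have s1 : ∀ p ∈ P m, dot (e α) p ≤ Real.cos α := by
    intro p hp
    have := hedge 0 p hp
    have e0 : ((2 * ((0 : ℤ) : ℝ) + 1) * al m) = al m := by push_cast; ring
    rw [e0] at this
    rw [hα]; exact this
  have s2 : ∀ p ∈ P m, dot (e Real.pi) p ≤ Real.cos α := by
    intro p hp
    have := hedge j p hp
    rw [hjα] at this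
    rw [hα]; exact this
  have s3 : ∀ p : E2, 0 ≤ p 1 → 0 ≤ p 0 * Real.sin (2 * α) - p 1 * Real.cos (2 * α) →
      dot (e α) p ≤ Real.cos α → p ∈ P m := by
    intro p g1 g2 g3
    refine hsec 0 p ?_ ?_ ?_
    · simp [cr]; exact g1
    · have e0 : ((2 * ((0 : ℤ) : ℝ) + 2) * al m) = 2 * α := by rw [hα]; push_cast; ring
      rw [e0]
      exact g2
    · have e0 : ((2 * ((0 : ℤ) : ℝ) + 1) * al m) = α := by rw [hα]; push_cast; ring
      rw [e0, ← hα]; exact g3
  have s4 : ∀ p : E2, 0 ≤ -(Real.cos α * p 1) - Real.sin α * p 0 →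
      0 ≤ -(p 0 * Real.sin α) + p 1 * Real.cos α →
      dot (e Real.pi) p ≤ Real.cos α → p ∈ P m := by
    intro p g1 g2 g3
    refine hsec j p ?_ ?_ ?_
    · have e0 : 2 * ((j : ℤ) : ℝ) * al m = Real.pi - α := by rw [hα, ← hjα]; ring
      rw [e0]
      simp only [cr, e_zero', e_one', Real.cos_pi_sub, Real.sin_pi_sub]
      linarith
    · have e0 : ((2 * ((j : ℤ) : ℝ) + 2) * al m) = α + Real.pi := by rw [hα, ← hjα]; ring
      rw [e0]
      simp only [cr, e_zero', e_one', Real.cos_add_pi, Real.sin_add_pi]
      linarith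
    · rw [hjα, ← hα]; exact g3
  rw [← hx] at x1pos x1le htan hT4 ⊢
  rw [← hα] at x1le htan hT4 hα0 hα5 h1 ⊢
  have hpi := Real.pi_pos
  have cα : 0 < Real.cos α := Real.cos_pos_of_mem_Ioo ⟨by linarith, by linarith⟩
  have sα : 0 < Real.sin α := Real.sin_pos_of_pos_of_lt_pi hα0 (by linarith)
  have cθ : 0 < Real.cos θ := Real.cos_pos_of_mem_Ioo ⟨by linarith, by linarith⟩
  have sθ : 0 < Real.sin θ := Real.sin_pos_of_pos_of_lt_pi h0 (by linarith)
  have cd : 0 < Real.cos (α - θ) := Real.cos_pos_of_mem_Ioo ⟨by linarith, by linarith⟩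
  have s2α : 0 < Real.sin (2 * α) := Real.sin_pos_of_pos_of_lt_pi (by linarith) (by linarith)
  have sd : 0 < Real.sin (2 * α - θ) :=
    Real.sin_pos_of_pos_of_lt_pi (by linarith) (by linarith)
  have hx1 : x ≤ 1 := by linarith
  obtain ⟨X, hX⟩ : ∃ X : E2, X = !₂[x, 0] := ⟨_, rfl⟩
  have X0 : X 0 = x := by rw [hX]; rfl
  have X1 : X 1 = 0 := by rw [hX]; rfl
  have dX : dot (e α) X = Real.cos α * x := by
    simp only [dot, e_zero', e_one', X0, X1]; ring
  have dX' : dot (e Real.pi) X = -x := by
    simp only [dot, e_zero', e_one', X0, X1, Real.cos_pi]; ring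
  obtain ⟨t, ht⟩ : ∃ t, t = (Real.cos α - dot (e α) X) / dot (e α) (e θ) := ⟨_, rfl⟩
  have dθ : dot (e α) (e θ) = Real.cos (α - θ) := by
    rw [dot_e, ← Real.cos_neg]; congr 1; ring
  have d0 : dot (e α) (e 0) = Real.cos α := by
    rw [dot_e, zero_sub, Real.cos_neg]
  have ht' : t * Real.cos (α - θ) = Real.cos α * (1 - x) := by
    rw [ht, dθ, dX]; field_simp
  have ht0 : 0 ≤ t := by
    rw [ht, dθ, dX]
    apply div_nonneg _ cd.le
    nlinarith
  have XR : X ∈ P m := by
    apply s3
    · rw [X1]
    · rw [X0, X1]; nlinarith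
    · rw [dX]; nlinarith
  -- the measure of V0 \ V'
  obtain ⟨V', hV'⟩ : ∃ V' : Set E2, V' = {p | -(x * Real.sin θ) ≤ dot (e (θ + Real.pi / 2)) p} :=
    ⟨_, rfl⟩
  have mV' : ∀ p : E2, p ∈ V' ↔ -(x * Real.sin θ) ≤ Real.cos θ * p 1 - Real.sin θ * p 0 := by
    intro p; rw [hV', mem_ofPred_eq, dot_perp]
  have A1 : (mu (P m)).real ({p : E2 | 0 ≤ p 1} \ V') =
      (Real.cos α + x) ^ 2 * Real.tan θ / 2 := by
    have hval : (Real.cos α - dot (e α) X) ^ 2 * cr (e 0) (e θ) /
        (2 * dot (e α) (e 0) * dot (e α) (e θ)) = (Real.cos α + x) ^ 2 * Real.tan θ / 2 := by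
      rw [cr_e, dθ, d0, dX, sub_zero, Real.tan_eq_sin_div_cos]
      have e1 : (Real.cos α - Real.cos α * x) ^ 2 * Real.sin θ /
          (2 * Real.cos α * Real.cos (α - θ)) =
          (Real.cos α * (1 - x) ^ 2 / Real.cos (α - θ)) * Real.sin θ / 2 := by
        field_simp
      rw [e1, hT4]; field_simp
    apply le_antisymm
    · have a1 := CNU (P m) hBody ({p : E2 | 0 ≤ p 1} \ V') X (e 0) (e θ) (e α) (Real.cos α)
        (by rw [cr_e, sub_zero]; exact sθ) (by rw [d0]; exact cα) (by rw [dθ]; exact cd)
        (by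
          rintro p ⟨hp1, hp2⟩ hp
          rw [mV', not_le] at hp2
          refine ⟨?_, ?_, s1 p hp⟩
          · simp only [cr, e_zero', e_one', PiLp.sub_apply, X0, X1, Real.cos_zero, Real.sin_zero]
            have : (0 : ℝ) ≤ p 1 := hp1
            linarith
          · simp only [cr, e_zero', e_one', PiLp.sub_apply, X0, X1]
            linarith)
      rw [max_eq_right (by rw [dX]; nlinarith), hval] at a1
      exact a1
    · have a1 := CNL (P m) hBody ({p : E2 | 0 ≤ p 1} \ V') X (e 0) (e θ) (e α) (Real.cos α)
        (by rw [cr_e, sub_zero]; exact sθ) (by rw [d0]; exact cα) (by rw [dθ]; exact cd)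
        (by rw [dX]; nlinarith) XR
        (by
          have e1 : (Real.cos α - dot (e α) X) / dot (e α) (e 0) = 1 - x := by
            rw [d0, dX]; field_simp
          rw [e1]
          apply s3
          · simp [X1]
          · simp only [PiLp.add_apply, PiLp.smul_apply, smul_eq_mul, X0, X1, e_zero', e_one',
              Real.cos_zero, Real.sin_zero]
            nlinarith
          · simp only [dot, PiLp.add_apply, PiLp.smul_apply, smul_eq_mul, X0, X1, e_zero', e_one',
              Real.cos_zero, Real.sin_zero]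
            nlinarith)
        (by
          rw [← ht]
          apply s3
          · simp only [PiLp.add_apply, PiLp.smul_apply, smul_eq_mul, X1, e_one']
            have := mul_nonneg ht0 sθ.le
            linarith
          · simp only [PiLp.add_apply, PiLp.smul_apply, smul_eq_mul, X0, X1, e_zero', e_one']
            have e1 : (x + t * Real.cos θ) * Real.sin (2 * α) -
                (0 + t * Real.sin θ) * Real.cos (2 * α) =
                x * Real.sin (2 * α) + t * Real.sin (2 * α - θ) := by
              rw [Real.sin_sub]; ring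
            rw [e1]
            have := mul_nonneg ht0 sd.le
            have := mul_pos x1pos s2α
            linarith
          · have e1 : dot (e α) (X + t • e θ) = dot (e α) X + t * dot (e α) (e θ) := by
              simp only [dot, PiLp.add_apply, PiLp.smul_apply, smul_eq_mul]; ring
            rw [e1, dX, dθ, ht']
            linarith)
        (by
          intro p g1 g2 g3
          simp only [cr, e_zero', e_one', PiLp.sub_apply, X0, X1, Real.cos_zero,
            Real.sin_zero] at g1 g2
          refine ⟨?_, ?_⟩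
          · show (0 : ℝ) ≤ p 1
            linarith
          · rw [mV', not_le]; linarith)
      rw [hval] at a1
      exact a1
  have A2 : (mu (P m)).real (V' \ {p : E2 | 0 ≤ p 1}) =
      (Real.cos α + x) ^ 2 * Real.tan θ / 2 := by
    have c0 : cr (e Real.pi) (e (θ + Real.pi)) = Real.sin θ := by
      rw [cr_e]; congr 1; ring
    have dπ : dot (e Real.pi) (e Real.pi) = 1 := by
      rw [dot_e, sub_self, Real.cos_zero]
    have dπθ : dot (e Real.pi) (e (θ + Real.pi)) = Real.cos θ := by
      rw [dot_e]; congr 1; ring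
    have hval : (Real.cos α - dot (e Real.pi) X) ^ 2 * cr (e Real.pi) (e (θ + Real.pi)) /
        (2 * dot (e Real.pi) (e Real.pi) * dot (e Real.pi) (e (θ + Real.pi))) =
        (Real.cos α + x) ^ 2 * Real.tan θ / 2 := by
      rw [c0, dπ, dπθ, dX', Real.tan_eq_sin_div_cos]
      field_simp
      ring
    apply le_antisymm
    · have a1 := CNU (P m) hBody (V' \ {p : E2 | 0 ≤ p 1}) X (e Real.pi) (e (θ + Real.pi))
        (e Real.pi) (Real.cos α)
        (by rw [c0]; exact sθ) (by rw [dπ]; exact one_pos) (by rw [dπθ]; exact cθ)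
        (by
          rintro p ⟨hp2, hp1⟩ hp
          rw [mV'] at hp2
          have hp1' : p 1 < 0 := not_le.1 hp1
          refine ⟨?_, ?_, s2 p hp⟩
          · simp only [cr, e_zero', e_one', PiLp.sub_apply, X0, X1, Real.cos_pi, Real.sin_pi]
            linarith
          · simp only [cr, e_zero', e_one', PiLp.sub_apply, X0, X1, Real.cos_add_pi,
              Real.sin_add_pi]
            linarith)
      rw [max_eq_right (by rw [dX']; linarith), hval] at a1
      exact a1
    · have a1 := CNL (P m) hBody (V' \ {p : E2 | 0 ≤ p 1}) X (e Real.pi) (e (θ + Real.pi))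
        (e Real.pi) (Real.cos α)
        (by rw [c0]; exact sθ) (by rw [dπ]; exact one_pos) (by rw [dπθ]; exact cθ)
        (by rw [dX']; linarith) XR
        (by
          rw [dπ, dX']
          apply s4
          · simp only [PiLp.add_apply, PiLp.smul_apply, smul_eq_mul, X0, X1, e_zero', e_one',
              Real.cos_pi, Real.sin_pi]
            nlinarith [mul_pos sα cα]
          · simp only [PiLp.add_apply, PiLp.smul_apply, smul_eq_mul, X0, X1, e_zero', e_one',
              Real.cos_pi, Real.sin_pi]
            nlinarith [mul_pos sα cα]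
          · simp only [dot, PiLp.add_apply, PiLp.smul_apply, smul_eq_mul, X0, X1, e_zero', e_one',
              Real.cos_pi, Real.sin_pi]
            linarith)
        (by
          rw [dπθ, dX']
          obtain ⟨r, hr⟩ : ∃ r, r = (Real.cos α - -x) / Real.cos θ := ⟨_, rfl⟩
          have hr1 : r * Real.cos θ = Real.cos α + x := by rw [hr]; field_simp; ring
          have hr2 : r * Real.sin θ = (Real.cos α + x) * Real.tan θ := by
            rw [hr, Real.tan_eq_sin_div_cos]; field_simp; ring
          have hr3 : 0 ≤ r * Real.sin θ := by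
            rw [hr2]
            have : 0 < Real.tan θ := by rw [Real.tan_eq_sin_div_cos]; exact div_pos sθ cθ
            positivity
          rw [← hr2] at htan
          rw [← hr]
          apply s4
          · simp only [PiLp.add_apply, PiLp.smul_apply, smul_eq_mul, X0, X1, e_zero', e_one',
              Real.cos_add_pi, Real.sin_add_pi]
            have e1 : -(Real.cos α * (0 + r * -Real.sin θ)) -
                Real.sin α * (x + r * -Real.cos θ) =
                Real.cos α * (r * Real.sin θ) + Real.sin α * (r * Real.cos θ - x) := by ring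
            rw [e1, hr1]
            have := mul_nonneg cα.le hr3
            have := mul_pos sα cα
            nlinarith
          · simp only [PiLp.add_apply, PiLp.smul_apply, smul_eq_mul, X0, X1, e_zero', e_one',
              Real.cos_add_pi, Real.sin_add_pi]
            have e1 : -((x + r * -Real.cos θ) * Real.sin α) +
                (0 + r * -Real.sin θ) * Real.cos α =
                (r * Real.cos θ - x) * Real.sin α - r * Real.sin θ * Real.cos α := by ring
            rw [e1, hr1]
            have := mul_le_mul_of_nonneg_right htan cα.le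
            nlinarith
          · have e1 : dot (e Real.pi) (X + r • e (θ + Real.pi)) =
                dot (e Real.pi) X + r * dot (e Real.pi) (e (θ + Real.pi)) := by
              simp only [dot, PiLp.add_apply, PiLp.smul_apply, smul_eq_mul]; ring
            rw [e1, dX', dπθ, hr1]
            linarith)
        (by
          intro p g1 g2 g3
          simp only [cr, e_zero', e_one', PiLp.sub_apply, X0, X1, Real.cos_add_pi,
            Real.sin_add_pi, Real.cos_pi, Real.sin_pi] at g1 g2
          refine ⟨?_, ?_⟩
          · rw [mV']; linarith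
          · show ¬ (0 : ℝ) ≤ p 1
            rw [not_le]; linarith)
      rw [hval] at a1
      exact a1
  have hVm : MeasurableSet V' := by rw [hV']; exact half_meas _ _
  have hUm : MeasurableSet {p : E2 | 0 ≤ p 1} := by rw [← half_up]; exact half_meas _ _
  have hfin := diff_add hBody hUm hVm
  rw [A1, A2, hV0] at hfin
  refine ⟨?_, ?_⟩
  · symm
    apply hB2
    unfold H
    rw [← hV', hfin]; ring
  · rw [← hV', A1]

end Pool.Agent.W2helper77.QD
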